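import Pool.Agent.helper75.WB.SpecI

/-!
# Project wb, Part I, row IBAL: balanced bases
-/

set_option autoImplicit false

namespace Pool.Agent.WB

/-- Cramer: from the divisibilities to the chart. -/
theorem ibal_core28 (p p' Δ : ℕ) (hp : p.Prime) (hp' : p'.Prime) (hne : p ≠ p') (hΔ : Δ.Prime)
    (x y x' y' D : ℤ) (hD : x * y' - x' * y = D) (hDΔ : D.natAbs = Δ)
    (h1 : (Δ : ℤ) ∣ x' * p - x * p') (h2 : (Δ : ℤ) ∣ y' * p - y * p') :
    ∃ q q' : ℤ, x * q + y * q' = p ∧ x' * q + y' * q' = p' ∧ IsCoprime q q' := by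
  have hD0 : D ≠ 0 := by
    intro h
    rw [h] at hDΔ
    have := hΔ.pos
    simp at hDΔ
    omega
  have hdv : D ∣ (Δ : ℤ) := by
    rw [← hDΔ]
    exact Int.dvd_natAbs.2 (dvd_refl D)
  obtain ⟨q, hq⟩ := hdv.trans h2
  obtain ⟨q', hq'⟩ := hdv.trans h1
  refine ⟨q, -q', ?_, ?_, ?_⟩
  · apply mul_left_cancel₀ hD0
    have : D * (x * q + y * -q') = x * (D * q) - y * (D * q') := by ring
    rw [this, ← hq, ← hq', ← hD]
    ring
  · apply mul_left_cancel₀ hD0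
    have : D * (x' * q + y' * -q') = x' * (D * q) - y' * (D * q') := by ring
    rw [this, ← hq, ← hq', ← hD]
    ring
  · have e1 : x * q + y * -q' = p := by
      apply mul_left_cancel₀ hD0
      have : D * (x * q + y * -q') = x * (D * q) - y * (D * q') := by ring
      rw [this, ← hq, ← hq', ← hD]
      ring
    have e2 : x' * q + y' * -q' = p' := by
      apply mul_left_cancel₀ hD0
      have : D * (x' * q + y' * -q') = x' * (D * q) - y' * (D * q') := by ring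
      rw [this, ← hq, ← hq', ← hD]
      ring
    have hc : IsCoprime (p : ℤ) (p' : ℤ) :=
      Nat.isCoprime_iff_coprime.2 ((Nat.coprime_primes hp hp').2 hne)
    obtain ⟨a, b, hab⟩ := hc
    refine ⟨a * x + b * x', a * y + b * y', ?_⟩
    rw [← e1, ← e2] at hab
    rw [← hab]
    ring

theorem abs_le_sqrt28 (x : ℤ) (Δ : ℕ) (h : x ^ 2 ≤ Δ) : |(x : ℝ)| ≤ Real.sqrt Δ := by
  apply Real.abs_le_sqrt
  exact_mod_cast h

theorem bound28 (x x' v : ℤ) (Δ : ℕ) (s₀ : ℝ) (hs₀ : 0 < s₀) (hsx : s₀ ≤ |(x : ℝ)|)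
    (hx' : |(x' : ℝ)| ≤ Real.sqrt Δ) (h : |x| * |v| ≤ Δ + |x'| * |x|) :
    |(v : ℝ)| ≤ (Δ : ℝ) / s₀ + Real.sqrt Δ := by
  have hR : |(x : ℝ)| * |(v : ℝ)| ≤ Δ + |(x' : ℝ)| * |(x : ℝ)| := by exact_mod_cast h
  have hx0 : 0 < |(x : ℝ)| := lt_of_lt_of_le hs₀ hsx
  have h1 : |(v : ℝ)| ≤ Δ / |(x : ℝ)| + |(x' : ℝ)| := by
    rw [div_add' _ _ _ hx0.ne', le_div_iff₀ hx0]
    linarith
  have h2 : (Δ : ℝ) / |(x : ℝ)| ≤ Δ / s₀ := by
    apply div_le_div_of_nonneg_left (Nat.cast_nonneg _) hs₀ hsx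
  linarith

theorem IBAL (hITHU : ITHU_stmt) (hICMP : ICMP_stmt) : IBAL_stmt := by
  intro p p' Δ s₀ hp hp' hne hΔ hlt hlt' hs₀ H
  obtain ⟨x, x', hcop, hx, hx', hdvd⟩ := hITHU p p' Δ hp hp' hΔ hlt hlt'
  have hnz : x ≠ 0 ∨ x' ≠ 0 := by
    by_contra hcon
    rw [not_or, not_not, not_not] at hcon
    obtain ⟨a, b, hab⟩ := hcop
    rw [hcon.1, hcon.2] at hab
    simp at hab
  have hs := H x x' hnz hdvd
  have bx : |(x : ℝ)| ≤ Real.sqrt Δ := abs_le_sqrt28 x Δ hx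
  have bx' : |(x' : ℝ)| ≤ Real.sqrt Δ := abs_le_sqrt28 x' Δ hx'
  have hq0 : (0 : ℝ) ≤ (Δ : ℝ) / s₀ := by positivity
  rcases le_or_gt |x'| |x| with hle | hgt
  · have hleR : |(x' : ℝ)| ≤ |(x : ℝ)| := by exact_mod_cast hle
    rw [max_eq_left hleR] at hs
    have hx0 : x ≠ 0 := by
      rintro rfl
      simp at hs
      linarith
    obtain ⟨v1, v2, c, c', τ, e1, e2, e3, b1, b2⟩ := hICMP x x' Δ hcop hx0
    have hd2 : (Δ : ℤ) ∣ v2 * p - v1 * p' := by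
      have : v2 * p - v1 * p' = Δ * (c' * p - c * p') + τ * (x' * p - x * p') := by
        rw [e1, e2]; ring
      rw [this]
      exact dvd_add (dvd_mul_right _ _) (dvd_mul_of_dvd_right hdvd _)
    obtain ⟨q, q', h1, h2, h3⟩ := ibal_core28 p p' Δ hp hp' hne hΔ x v1 x' v2 (Δ : ℤ) e3
      (Int.natAbs_natCast Δ) hdvd hd2
    have b1R : |(v1 : ℝ)| ≤ |(x : ℝ)| := by exact_mod_cast b1
    refine ⟨x, v1, x', v2, q, q', h1, h2, ?_, h3, ?_, ?_, ?_, ?_⟩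
    · rw [e3]; exact Int.natAbs_natCast Δ
    · linarith
    · linarith
    · linarith
    · exact bound28 x x' v2 Δ s₀ hs₀ hs bx' b2
  · have hleR : |(x : ℝ)| ≤ |(x' : ℝ)| := by exact_mod_cast hgt.le
    rw [max_eq_right hleR] at hs
    have hx0 : x' ≠ 0 := by
      rintro rfl
      simp at hs
      linarith
    obtain ⟨v1, v2, c, c', τ, e1, e2, e3, b1, b2⟩ := hICMP x' x Δ hcop.symm hx0
    have hd2 : (Δ : ℤ) ∣ v1 * p - v2 * p' := by
      have : v1 * p - v2 * p' = Δ * (c * p - c' * p') + τ * (x' * p - x * p') := by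
        rw [e1, e2]; ring
      rw [this]
      exact dvd_add (dvd_mul_right _ _) (dvd_mul_of_dvd_right hdvd _)
    have e3' : x * v1 - x' * v2 = -(Δ : ℤ) := by linarith
    obtain ⟨q, q', h1, h2, h3⟩ := ibal_core28 p p' Δ hp hp' hne hΔ x v2 x' v1 (-(Δ : ℤ)) e3'
      (by rw [Int.natAbs_neg]; exact Int.natAbs_natCast Δ) hdvd hd2
    have b1R : |(v1 : ℝ)| ≤ |(x' : ℝ)| := by exact_mod_cast b1
    refine ⟨x, v2, x', v1, q, q', h1, h2, ?_, h3, ?_, ?_, ?_, ?_⟩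
    · rw [e3', Int.natAbs_neg]; exact Int.natAbs_natCast Δ
    · linarith
    · exact bound28 x' x v2 Δ s₀ hs₀ hs bx b2
    · linarith
    · linarith

end Pool.Agent.WB
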