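import Pool.Agent.helper78.WB.SpecIIa

/-!
# Project wb, Part IIa, row VAN: a vertex with many neighbours on the form is on the form
-/

set_option autoImplicit false

namespace Pool.Agent.WB

open MvPolynomial

theorem VAN (h1 : MU_stmt) (h2 : DIV_stmt) (h3 : SIZE_stmt) : VAN_stmt := by
  intro ξ δ hξ hδ
  -- choice of N₀
  have hlim : Filter.Tendsto (fun N : ℕ => ((N : ℕ) : ℝ) ^ δ) Filter.atTop Filter.atTop :=
    (tendsto_rpow_atTop hδ).comp tendsto_natCast_atTop_atTop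
  obtain ⟨N₁, hN₁⟩ := Filter.eventually_atTop.1 (hlim.eventually_gt_atTop (80 / ξ))
  refine ⟨max N₁ 3, ?_⟩
  intro N hN D hD1 hDN G hG hGc b hb hbc hbs T hT hTinj hTcard
  have hN1 : N₁ ≤ N := le_trans (le_max_left _ _) hN
  have hN3 : 3 ≤ N := le_trans (le_max_right _ _) hN
  have hNd : 80 / ξ < (N : ℝ) ^ δ := hN₁ N hN1
  have hNR : (3 : ℝ) ≤ (N : ℝ) := by exact_mod_cast hN3
  have hN0 : (0 : ℝ) < (N : ℝ) := by linarith
  by_contra hne
  set f : V3 → ℕ := fun ζ => (dt ζ b).natAbs with hf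
  set P : Finset ℕ := T.image f with hP
  -- T.card ≤ P.card * (10 N^(2δ))
  have hA : (T.card : ℝ) ≤ (P.card : ℝ) * (10 * (N : ℝ) ^ (2 * δ)) := by
    have e1 : T.card = ∑ ℓ ∈ P, (T.filter (fun ζ => f ζ = ℓ)).card :=
      Finset.card_eq_sum_card_image f T
    rw [e1]
    push_cast
    calc ∑ ℓ ∈ P, ((T.filter (fun ζ => f ζ = ℓ)).card : ℝ)
        ≤ ∑ _ℓ ∈ P, (10 * (N : ℝ) ^ (2 * δ)) := by
          apply Finset.sum_le_sum
          intro ℓ _
          refine h1 N ξ δ b ℓ _ (by omega) hδ.le ?_ hbc hbs ?_ ?_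
          · intro ζ hζ
            exact (hT ζ (Finset.mem_filter.1 hζ).1).1
          · intro ζ hζ
            exact (Finset.mem_filter.1 hζ).2
          · intro ζ hζ ζ' hζ' h0 h1'
            exact hTinj ζ (Finset.mem_filter.1 hζ).1 ζ' (Finset.mem_filter.1 hζ').1 h0 h1'
      _ = (P.card : ℝ) * (10 * (N : ℝ) ^ (2 * δ)) := by
          rw [Finset.sum_const, nsmul_eq_mul]
  -- the product of the primes divides the value
  have hdvd : ∏ ℓ ∈ P, ℓ ∣ (eval b G).natAbs := by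
    apply Finset.prod_primes_dvd
    · intro ℓ hℓ
      obtain ⟨ζ, hζ, rfl⟩ := Finset.mem_image.1 hℓ
      exact (hT ζ hζ).2.2.1.prime
    · intro ℓ hℓ
      obtain ⟨ζ, hζ, rfl⟩ := Finset.mem_image.1 hℓ
      obtain ⟨hbox, hz, hp, _, u, v, hu, hv⟩ := hT ζ hζ
      have := (h2 ζ b u v D G hbox.2.2.2 hbc hu hv hp hG).1 hz
      exact Int.natAbs_dvd_natAbs.2 this
  have hval : 0 < (eval b G).natAbs := Int.natAbs_pos.2 hne
  have hle : ∏ ℓ ∈ P, ℓ ≤ (eval b G).natAbs := Nat.le_of_dvd hval hdvd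
  have hlow : ((N : ℝ) ^ ξ) ^ P.card ≤ ((eval b G).natAbs : ℝ) := by
    calc ((N : ℝ) ^ ξ) ^ P.card = ∏ _ℓ ∈ P, ((N : ℝ) ^ ξ) := by rw [Finset.prod_const]
      _ ≤ ∏ ℓ ∈ P, (ℓ : ℝ) := by
          apply Finset.prod_le_prod
          · intro ℓ _
            positivity
          · intro ℓ hℓ
            obtain ⟨ζ, hζ, rfl⟩ := Finset.mem_image.1 hℓ
            exact (hT ζ hζ).2.2.2.1
      _ = ((∏ ℓ ∈ P, ℓ : ℕ) : ℝ) := by push_cast; rfl
      _ ≤ ((eval b G).natAbs : ℝ) := by exact_mod_cast hle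
  -- upper bound of the value
  have hs3 : s3 D ≤ N ^ 3 := by
    have : s3 D ≤ 3 * N ^ 2 := by
      unfold s3
      have h5 : (D + 1) * (D + 2) ≤ 2 * (3 * N ^ 2) := by nlinarith
      omega
    calc s3 D ≤ 3 * N ^ 2 := this
      _ ≤ N * N ^ 2 := Nat.mul_le_mul_right _ hN3
      _ = N ^ 3 := by ring
  have hup : (eval b G).natAbs ≤ N ^ (8 * D) := by
    have h5 := h3 D (s3 D * N ^ D) N G b hG hGc hb
    have h6 : ((eval b G).natAbs : ℤ) ≤ ((s3 D * (s3 D * N ^ D) * N ^ D : ℕ) : ℤ) := by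
      rw [Int.natCast_natAbs]
      push_cast at h5 ⊢
      exact h5
    have h7 : (eval b G).natAbs ≤ s3 D * (s3 D * N ^ D) * N ^ D := by exact_mod_cast h6
    calc (eval b G).natAbs ≤ s3 D * (s3 D * N ^ D) * N ^ D := h7
      _ ≤ N ^ 3 * (N ^ 3 * N ^ D) * N ^ D := by gcongr
      _ = N ^ (6 + 2 * D) := by ring
      _ ≤ N ^ (8 * D) := Nat.pow_le_pow_right (by omega) (by omega)
  have hexp : ξ * P.card ≤ 8 * D := by
    have h8 : (N : ℝ) ^ (ξ * P.card) ≤ (N : ℝ) ^ ((8 * D : ℕ) : ℝ) := by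
      rw [Real.rpow_mul hN0.le, Real.rpow_natCast, Real.rpow_natCast]
      refine hlow.trans ?_
      exact_mod_cast hup
    have h9 := (Real.rpow_le_rpow_left_iff (by linarith : (1 : ℝ) < (N : ℝ))).1 h8
    push_cast at h9
    exact h9
  have hD0 : (0 : ℝ) < (D : ℝ) := by exact_mod_cast hD1
  have hcard : (P.card : ℝ) ≤ 8 * D / ξ := by
    rw [le_div_iff₀ hξ]
    linarith
  have h2d : (0 : ℝ) < (N : ℝ) ^ (2 * δ) := by positivity
  have h3d : (N : ℝ) ^ (3 * δ) = (N : ℝ) ^ (2 * δ) * (N : ℝ) ^ δ := by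
    rw [← Real.rpow_add hN0]
    congr 1
    ring
  have : (N : ℝ) ^ (3 * δ) * D ≤ (N : ℝ) ^ (2 * δ) * (80 / ξ) * D := by
    calc (N : ℝ) ^ (3 * δ) * D ≤ (T.card : ℝ) := hTcard
      _ ≤ (P.card : ℝ) * (10 * (N : ℝ) ^ (2 * δ)) := hA
      _ ≤ (8 * D / ξ) * (10 * (N : ℝ) ^ (2 * δ)) := by gcongr
      _ = (N : ℝ) ^ (2 * δ) * (80 / ξ) * D := by ring
  have h10 : (N : ℝ) ^ (2 * δ) * (80 / ξ) * D < (N : ℝ) ^ (3 * δ) * D := by
    rw [h3d]
    gcongr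
  linarith

end Pool.Agent.WB
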